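import Pool.Agent.Helper17.PickerChooser

set_option autoImplicit false
open Filter Topology

namespace Pool.Agent.Results.MP_cd7f8f_co.Full

/-- The cells of the `n × n` board; the first coordinate is the row. -/
abbrev Cell (n : ℕ) := Fin n × Fin n

/-- The turns played so far, the latest turn first; each turn is the pair
(cell marked P, cell marked C). -/
abbrev Hist (n : ℕ) := List (Cell n × Cell n)

/-- The cell `c` is unmarked after the turns `t`. -/
def Free {n : ℕ} (t : Hist n) (c : Cell n) : Prop := ∀ p ∈ t, c ≠ p.1 ∧ c ≠ p.2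

/-- Fewer than two cells are unmarked after the turns `t`, so that no further turn is possible. -/
def Complete {n : ℕ} (t : Hist n) : Prop := ∀ a b : Cell n, Free t a → Free t b → a = b

/-- A strategy of Chooser: from the turns played so far and the set of the two cells offered it
gives the cell which Chooser takes. -/
def ChooserLegal {n : ℕ} (σ : Hist n → Finset (Cell n) → Cell n) : Prop :=
  ∀ (t : Hist n) (s : Finset (Cell n)), s.card = 2 → σ t s ∈ s

/-- The turns `t` can arise when Chooser follows `σ`: in each turn Picker offers any two unmarked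
cells, Chooser takes the one named by `σ` and Picker gets the other one. -/
inductive ByChooser {n : ℕ} (σ : Hist n → Finset (Cell n) → Cell n) : Hist n → Prop
  | start : ByChooser σ []
  | turn {t : Hist n} {a b : Cell n} : ByChooser σ t → a ≠ b → Free t a → Free t b →
      σ t {a, b} = b → ByChooser σ ((a, b) :: t)

/-- The turns `t` can arise when Picker follows `π`, which names the two cells to be offered:
Chooser takes any one of them and Picker gets the other one. -/
inductive ByPicker {n : ℕ} (π : Hist n → Finset (Cell n)) : Hist n → Prop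
  | start : ByPicker π []
  | turn {t : Hist n} {a b : Cell n} : ByPicker π t → a ≠ b → Free t a → Free t b →
      π t = {a, b} → ByPicker π ((a, b) :: t)

/-- The marks of all the cells at the end (`true` is P, `false` is C): those given by the turns
`t`, and `r` for a cell which is still unmarked. -/
def final {n : ℕ} (r : Bool) (t : Hist n) (c : Cell n) : Bool :=
  if c ∈ t.map Prod.fst then true else if c ∈ t.map Prod.snd then false else r

/-- The number of P-cells minus the number of C-cells in row `i`. -/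
def rowLead {n : ℕ} (m : Cell n → Bool) (i : Fin n) : ℤ :=
  ((Finset.univ.filter (fun j : Fin n => m (i, j) = true)).card : ℤ)
    - ((Finset.univ.filter (fun j : Fin n => m (i, j) = false)).card : ℤ)

/-- Picker forces a lead of `ℓ` on the `n × n` board, under the convention `κ` (the mark of the
single remaining cell, if there is one): he has a strategy which always offers two unmarked cells
as long as there are two, and every play according to it ends with a lead of at least `ℓ` in some
row. -/
def PickerForces (κ : (n : ℕ) → Hist n → Bool) (n : ℕ) (ℓ : ℤ) : Prop :=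
  ∃ π : Hist n → Finset (Cell n), ∀ t : Hist n, ByPicker π t →
    (¬ Complete t → ∃ a b : Cell n, a ≠ b ∧ Free t a ∧ Free t b ∧ π t = {a, b}) ∧
    (Complete t → ∃ i : Fin n, ℓ ≤ rowLead (final (κ n t) t) i)

/-- The largest lead that Picker can force on the `n × n` board. -/
noncomputable def L (κ : (n : ℕ) → Hist n → Bool) (n : ℕ) : ℤ := sSup {ℓ : ℤ | PickerForces κ n ℓ}

/-! ### Proofs -/

open Pool.Agent.Helper17.PC in
/-- the position after the turns `t` -/
def pos {n : ℕ} (t : Hist n) : Pool.Agent.Helper17.PC.Pos n :=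
  ((t.map Prod.fst).toFinset, (t.map Prod.snd).toFinset)

theorem pos_cons {n : ℕ} (t : Hist n) (a b : Cell n) :
    pos ((a, b) :: t) = (insert a (pos t).1, insert b (pos t).2) := by
  simp [pos]

theorem free_iff {n : ℕ} (t : Hist n) (c : Cell n) : Free t c ↔ c ∉ (pos t).1 ∪ (pos t).2 := by
  unfold Free pos
  rw [Finset.mem_union, List.mem_toFinset, List.mem_toFinset, List.mem_map, List.mem_map]
  constructor
  · rintro h (⟨p, hp, rfl⟩ | ⟨p, hp, rfl⟩)
    · exact (h p hp).1 rfl
    · exact (h p hp).2 rfl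
  · intro h p hp
    refine ⟨?_, ?_⟩
    · rintro rfl
      exact h (Or.inl ⟨p, hp, rfl⟩)
    · rintro rfl
      exact h (Or.inr ⟨p, hp, rfl⟩)

theorem disj_cons {n : ℕ} {t : Hist n} {a b : Cell n} (hd : Disjoint (pos t).1 (pos t).2)
    (hab : a ≠ b) (ha : Free t a) (hb : Free t b) :
    Disjoint (pos ((a, b) :: t)).1 (pos ((a, b) :: t)).2 := by
  rw [free_iff, Finset.mem_union, not_or] at ha hb
  rw [pos_cons]
  simp only [Finset.disjoint_insert_left, Finset.disjoint_insert_right,
    Finset.mem_insert, not_or]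
  exact ⟨⟨hab.symm, hb.1⟩, ha.2, hd⟩

theorem byChooser_disj {n : ℕ} {σ : Hist n → Finset (Cell n) → Cell n} {t : Hist n}
    (h : ByChooser σ t) : Disjoint (pos t).1 (pos t).2 := by
  induction h with
  | start => simp [pos]
  | turn _ hab ha hb _ ih => exact disj_cons ih hab ha hb

/-- At the end the lead is at most the lead given by the turns, plus one. -/
theorem rowLead_le {n : ℕ} {t : Hist n} (hd : Disjoint (pos t).1 (pos t).2) (hc : Complete t)
    (r : Bool) (i : Fin n) : rowLead (final r t) i ≤ Pool.Agent.Helper17.PC.X (pos t) i + 1 := by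
  classical
  have h1 : (Finset.univ.filter (fun j : Fin n => final r t (i, j) = true)).card
      ≤ Pool.Agent.Helper17.PC.cnt (pos t).1 i + 1 := by
    have hsub : (Finset.univ.filter (fun j : Fin n => final r t (i, j) = true))
        ⊆ (Finset.univ.filter (fun j : Fin n => (i, j) ∈ (pos t).1))
          ∪ (Finset.univ.filter (fun j : Fin n => Free t (i, j))) := by
      intro j hj
      rw [Finset.mem_filter] at hj
      rw [Finset.mem_union, Finset.mem_filter, Finset.mem_filter]
      have hj2 := hj.2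
      unfold final at hj2
      split_ifs at hj2 with c1 c2
      · left
        exact ⟨Finset.mem_univ _, by simpa [pos] using c1⟩
      · right
        refine ⟨Finset.mem_univ _, ?_⟩
        rw [free_iff, Finset.mem_union, not_or]
        unfold pos
        rw [List.mem_toFinset, List.mem_toFinset]
        exact ⟨c1, c2⟩
    have hA : (Finset.univ.filter (fun j : Fin n => (i, j) ∈ (pos t).1)).card
        ≤ Pool.Agent.Helper17.PC.cnt (pos t).1 i := by
      unfold Pool.Agent.Helper17.PC.cnt
      refine Finset.card_le_card_of_injOn (fun j => (i, j)) ?_ ?_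
      · intro j hj
        have hj' := (Finset.mem_filter.mp (Finset.mem_coe.mp hj)).2
        exact Finset.mem_coe.mpr (Finset.mem_filter.mpr ⟨hj', rfl⟩)
      · intro j1 _ j2 _ h
        exact (Prod.mk.inj h).2
    have hB : (Finset.univ.filter (fun j : Fin n => Free t (i, j))).card ≤ 1 := by
      rw [Finset.card_le_one]
      intro j1 h1 j2 h2
      have := hc (i, j1) (i, j2) (Finset.mem_filter.mp h1).2 (Finset.mem_filter.mp h2).2
      exact (Prod.mk.inj this).2
    calc (Finset.univ.filter (fun j : Fin n => final r t (i, j) = true)).card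
        ≤ _ := Finset.card_le_card hsub
      _ ≤ _ := Finset.card_union_le _ _
      _ ≤ Pool.Agent.Helper17.PC.cnt (pos t).1 i + 1 := by omega
  have h2 : Pool.Agent.Helper17.PC.cnt (pos t).2 i
      ≤ (Finset.univ.filter (fun j : Fin n => final r t (i, j) = false)).card := by
    unfold Pool.Agent.Helper17.PC.cnt
    refine Finset.card_le_card_of_injOn (fun c => c.2) ?_ ?_
    · intro c hc'
      have hc2 := Finset.mem_filter.mp (Finset.mem_coe.mp hc')
      refine Finset.mem_coe.mpr (Finset.mem_filter.mpr ⟨Finset.mem_univ _, ?_⟩)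
      have hci : (i, c.2) = c := by rw [← hc2.2]
      rw [hci]
      unfold final
      have hn : c ∉ t.map Prod.fst := by
        intro hmem
        have h3 : c ∈ (pos t).1 := by unfold pos; exact List.mem_toFinset.mpr hmem
        exact (Finset.disjoint_left.mp hd h3) hc2.1
      have hy : c ∈ t.map Prod.snd := by
        have h3 := hc2.1
        unfold pos at h3
        exact List.mem_toFinset.mp h3
      rw [if_neg hn, if_pos hy]
    · intro c1 h1 c2 h2 h
      have e1 := (Finset.mem_filter.mp (Finset.mem_coe.mp h1)).2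
      have e2 := (Finset.mem_filter.mp (Finset.mem_coe.mp h2)).2
      exact Prod.ext (by rw [e1, e2]) h
  unfold rowLead Pool.Agent.Helper17.PC.X
  have h1' : ((Finset.univ.filter (fun j : Fin n => final r t (i, j) = true)).card : ℤ)
      ≤ (Pool.Agent.Helper17.PC.cnt (pos t).1 i : ℤ) + 1 := by exact_mod_cast h1
  have h2' : (Pool.Agent.Helper17.PC.cnt (pos t).2 i : ℤ)
      ≤ ((Finset.univ.filter (fun j : Fin n => final r t (i, j) = false)).card : ℤ) := by
    exact_mod_cast h2
  linarith

theorem rowLead_le_n {n : ℕ} (m : Cell n → Bool) (i : Fin n) : rowLead m i ≤ n := by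
  unfold rowLead
  have h1 : (Finset.univ.filter (fun j : Fin n => m (i, j) = true)).card ≤ n := by
    simpa using Finset.card_le_univ (Finset.univ.filter (fun j : Fin n => m (i, j) = true))
  have h1' : ((Finset.univ.filter (fun j : Fin n => m (i, j) = true)).card : ℤ) ≤ n := by
    exact_mod_cast h1
  have h2 : (0 : ℤ) ≤ ((Finset.univ.filter (fun j : Fin n => m (i, j) = false)).card : ℤ) := by
    positivity
  linarith

theorem neg_n_le_rowLead {n : ℕ} (m : Cell n → Bool) (i : Fin n) : -(n : ℤ) ≤ rowLead m i := by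
  unfold rowLead
  have h1 : (Finset.univ.filter (fun j : Fin n => m (i, j) = false)).card ≤ n := by
    simpa using Finset.card_le_univ (Finset.univ.filter (fun j : Fin n => m (i, j) = false))
  have h1' : ((Finset.univ.filter (fun j : Fin n => m (i, j) = false)).card : ℤ) ≤ n := by
    exact_mod_cast h1
  have h2 : (0 : ℤ) ≤ ((Finset.univ.filter (fun j : Fin n => m (i, j) = true)).card : ℤ) := by
    positivity
  linarith

/-- A strategy of Picker and a strategy of Chooser together produce a complete play. -/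
theorem run {n : ℕ} {π : Hist n → Finset (Cell n)} {σ : Hist n → Finset (Cell n) → Cell n}
    (hσ : ChooserLegal σ)
    (hπ : ∀ t : Hist n, ByPicker π t → ¬ Complete t →
      ∃ a b : Cell n, a ≠ b ∧ Free t a ∧ Free t b ∧ π t = {a, b}) :
    ∃ t : Hist n, ByPicker π t ∧ ByChooser σ t ∧ Complete t := by
  have key : ∀ m : ℕ, ∀ t : Hist n, ByPicker π t → ByChooser σ t →
      n * n - ((pos t).1 ∪ (pos t).2).card ≤ m →
      ∃ t : Hist n, ByPicker π t ∧ ByChooser σ t ∧ Complete t := by
    intro m
    induction m with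
    | zero =>
      intro t h1 h2 h3
      refine ⟨t, h1, h2, ?_⟩
      intro a b ha _
      exfalso
      rw [free_iff] at ha
      have hc : (insert a ((pos t).1 ∪ (pos t).2)).card ≤ Fintype.card (Fin n × Fin n) :=
        Finset.card_le_univ _
      rw [Finset.card_insert_of_notMem ha] at hc
      simp only [Fintype.card_prod, Fintype.card_fin] at hc
      omega
    | succ m ih =>
      intro t h1 h2 h3
      by_cases hC : Complete t
      · exact ⟨t, h1, h2, hC⟩
      · obtain ⟨a, b, hab, ha, hb, hp⟩ := hπ t h1 hC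
        have hcard : ∀ (c d : Cell n), Free t c →
            n * n - ((pos ((c, d) :: t)).1 ∪ (pos ((c, d) :: t)).2).card ≤ m := by
          intro c d hc
          rw [free_iff] at hc
          have h4 : ((pos t).1 ∪ (pos t).2).card + 1
              ≤ ((pos ((c, d) :: t)).1 ∪ (pos ((c, d) :: t)).2).card := by
            rw [← Finset.card_insert_of_notMem hc]
            apply Finset.card_le_card
            intro x hx
            rw [pos_cons]
            simp only [Finset.mem_insert, Finset.mem_union] at hx ⊢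
            tauto
          omega
        have hs : σ t {a, b} ∈ ({a, b} : Finset (Cell n)) :=
          hσ t {a, b} (Finset.card_pair hab)
        rw [Finset.mem_insert, Finset.mem_singleton] at hs
        rcases hs with hs | hs
        · have hs' : σ t {b, a} = a := by rw [Finset.pair_comm]; exact hs
          have hp' : π t = {b, a} := by rw [hp, Finset.pair_comm]
          exact ih ((b, a) :: t) (ByPicker.turn h1 hab.symm hb ha hp')
            (ByChooser.turn h2 hab.symm hb ha hs') (hcard b a hb)
        · exact ih ((a, b) :: t) (ByPicker.turn h1 hab ha hb hp)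
            (ByChooser.turn h2 hab ha hb hs) (hcard a b ha)
  exact key (n * n) [] ByPicker.start ByChooser.start (Nat.sub_le _ _)

/-- If Chooser can keep every row below or at `B`, then Picker forces no more than `B`. -/
theorem forces_le {κ : (n : ℕ) → Hist n → Bool} {n : ℕ} {ℓ : ℤ} {B : ℝ}
    (hf : PickerForces κ n ℓ) {σ : Hist n → Finset (Cell n) → Cell n} (hσ : ChooserLegal σ)
    (hB : ∀ t : Hist n, ByChooser σ t → Complete t → ∀ (r : Bool) (i : Fin n),
      (rowLead (final r t) i : ℝ) ≤ B) : (ℓ : ℝ) ≤ B := by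
  obtain ⟨π, hπ⟩ := hf
  obtain ⟨t, h1, h2, h3⟩ := run hσ (fun t ht => (hπ t ht).1)
  obtain ⟨i, hi⟩ := (hπ t h1).2 h3
  have h4 := hB t h2 h3 (κ n t) i
  have h5 : (ℓ : ℝ) ≤ (rowLead (final (κ n t) t) i : ℝ) := by exact_mod_cast hi
  linarith

theorem exists_legal {n : ℕ} (hn : 1 ≤ n) :
    ∃ σ : Hist n → Finset (Cell n) → Cell n, ChooserLegal σ := by
  have : ∀ s : Finset (Cell n), ∃ c : Cell n, s.card = 2 → c ∈ s := by
    intro s
    by_cases h : s.card = 2
    · obtain ⟨a, b, _, rfl⟩ := Finset.card_eq_two.mp h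
      exact ⟨a, fun _ => by simp⟩
    · exact ⟨(⟨0, hn⟩, ⟨0, hn⟩), fun h' => absurd h' h⟩
  choose f hf using this
  exact ⟨fun _ s => f s, fun _ s hs => hf s hs⟩

theorem forces_neg (κ : (n : ℕ) → Hist n → Bool) {n : ℕ} (hn : 1 ≤ n) :
    PickerForces κ n (-(n : ℤ)) := by
  have : ∀ t : Hist n, ∃ s : Finset (Cell n), ¬ Complete t →
      ∃ a b : Cell n, a ≠ b ∧ Free t a ∧ Free t b ∧ s = {a, b} := by
    intro t
    by_cases h : Complete t
    · exact ⟨∅, fun h' => absurd h h'⟩
    · unfold Complete at h
      push Not at h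
      obtain ⟨a, b, ha, hb, hab⟩ := h
      exact ⟨{a, b}, fun _ => ⟨a, b, hab, ha, hb, rfl⟩⟩
  choose f hf using this
  exact ⟨f, fun t _ => ⟨fun h => hf t h, fun _ => ⟨⟨0, hn⟩, neg_n_le_rowLead _ _⟩⟩⟩

theorem L_greatest (κ : (n : ℕ) → Hist n → Bool) {n : ℕ} (hn : 1 ≤ n) :
    IsGreatest {ℓ : ℤ | PickerForces κ n ℓ} (L κ n) := by
  have hne : {ℓ : ℤ | PickerForces κ n ℓ}.Nonempty := ⟨_, forces_neg κ hn⟩
  have hbd : BddAbove {ℓ : ℤ | PickerForces κ n ℓ} := by
    refine ⟨n, ?_⟩
    intro ℓ hℓ
    obtain ⟨σ, hσ⟩ := exists_legal hn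
    have := forces_le (B := (n : ℝ)) hℓ hσ (fun t _ _ r i => by
      have := rowLead_le_n (final r t) i
      exact_mod_cast this)
    exact_mod_cast this
  exact ⟨Int.csSup_mem hne hbd, fun ℓ hℓ => le_csSup hbd hℓ⟩

open Pool.Agent.Helper17.PC in
/-- The strategy of Chooser. -/
theorem chooser_strategy {n : ℕ} (hn : 1 ≤ n) {θ z : ℝ} (h0 : 0 ≤ θ) (h1 : θ ≤ 1 / 2) {y : ℤ}
    {K : ℕ} (hK1 : 1 ≤ K) (hy0 : 0 ≤ y) (hy : 1 ≤ θ * ((y : ℝ) - z))
    (hinit : n * h (-(θ * z) + θ ^ 2 * n / 2) ≤ K) :
    ∃ σ : Hist n → Finset (Cell n) → Cell n, ChooserLegal σ ∧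
      ∀ t : Hist n, ByChooser σ t → Complete t → ∀ (r : Bool) (i : Fin n),
        rowLead (final r t) i ≤ y + 2 * K := by
  classical
  have hex : ∀ (t : Hist n) (s : Finset (Cell n)), ∃ b : Cell n, (s.card = 2 → b ∈ s) ∧
      (∀ a : Cell n, a ≠ b → s = {a, b} → Free t a → Free t b →
        Disjoint (pos t).1 (pos t).2 → ∑ l, h (S θ z (pos t) l) ≤ K → Maj y K (X (pos t)) →
        ∑ l, h (S θ z (pos ((a, b) :: t)) l) ≤ K ∧ Maj y K (X (pos ((a, b) :: t)))) := by
    intro t s
    by_cases hs : s.card = 2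
    · obtain ⟨a, b, hab, rfl⟩ := Finset.card_eq_two.mp hs
      by_cases hall : Free t a ∧ Free t b ∧ Disjoint (pos t).1 (pos t).2 ∧
          ∑ l, h (S θ z (pos t) l) ≤ K ∧ Maj y K (X (pos t))
      · obtain ⟨ha, hb, hd, hΦ, hM⟩ := hall
        have ha' := (free_iff t a).mp ha
        have hb' := (free_iff t b).mp hb
        rcases turn h0 h1 (fun l => one_le_S h0 hy hd l) hΦ hM a.1 b.1 with ⟨g1, g2⟩ | ⟨g1, g2⟩
        · refine ⟨b, fun _ => by simp, ?_⟩
          intro c hcb hc _ _ _ _ _
          have hca : c = a := by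
            have : c ∈ ({a, b} : Finset (Cell n)) := by rw [hc]; simp
            rw [Finset.mem_insert, Finset.mem_singleton] at this
            rcases this with h | h
            · exact h
            · exact absurd h hcb
          subst hca
          rw [pos_cons, S_insert ha' hb', X_insert ha' hb']
          exact ⟨g1, g2⟩
        · refine ⟨a, fun _ => by simp, ?_⟩
          intro c hca hc _ _ _ _ _
          have hcb : c = b := by
            have : c ∈ ({a, b} : Finset (Cell n)) := by rw [hc]; simp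
            rw [Finset.mem_insert, Finset.mem_singleton] at this
            rcases this with h | h
            · exact absurd h hca
            · exact h
          subst hcb
          rw [pos_cons, S_insert hb' ha', X_insert hb' ha']
          exact ⟨g1, g2⟩
      · refine ⟨b, fun _ => by simp, ?_⟩
        intro c hcb hc hfc hfb hd hΦ hM
        exfalso
        have hca : c = a := by
          have : c ∈ ({a, b} : Finset (Cell n)) := by rw [hc]; simp
          rw [Finset.mem_insert, Finset.mem_singleton] at this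
          rcases this with h | h
          · exact h
          · exact absurd h hcb
        subst hca
        exact hall ⟨hfc, hfb, hd, hΦ, hM⟩
    · refine ⟨(⟨0, hn⟩, ⟨0, hn⟩), fun h' => absurd h' hs, ?_⟩
      intro a hab hs' _ _ _ _ _
      exact absurd (by rw [hs']; exact Finset.card_pair hab) hs
  choose σ hσ1 hσ2 using hex
  refine ⟨σ, hσ1, ?_⟩
  have inv : ∀ t : Hist n, ByChooser σ t → ∑ l, h (S θ z (pos t) l) ≤ K ∧ Maj y K (X (pos t)) := by
    intro t ht
    induction ht with
    | start =>
      constructor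
      · have : ∀ l ∈ (Finset.univ : Finset (Fin n)), h (S θ z (pos ([] : Hist n)) l)
            = h (-(θ * z) + θ ^ 2 * n / 2) := by
          intro l _
          unfold S cnt pos
          congr 1
          simp
        rw [Finset.sum_congr rfl this]
        simpa using hinit
      · intro M hMK
        have hX : ∀ l ∈ M, X (pos ([] : Hist n)) l - y = -y := by
          intro l _
          unfold X cnt pos
          simp
        rw [Finset.sum_congr rfl hX]
        have h2 : (M.card : ℤ) ≤ K := by exact_mod_cast hMK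
        have h3 : (0 : ℤ) ≤ M.card := by positivity
        simp only [Finset.sum_const, nsmul_eq_mul]
        nlinarith
    | turn ht hab ha hb hs ih =>
      rename_i t a b
      have := hσ2 t {a, b} a
      rw [hs] at this
      exact this hab rfl ha hb (byChooser_disj ht) ih.1 ih.2
  intro t ht hc r i
  have h3 := rowLead_le (byChooser_disj ht) hc r i
  have h4 := (inv t ht).2 {i} (by simpa using hK1)
  simp only [Finset.sum_singleton, Finset.card_singleton] at h4
  push_cast at h4
  linarith

open Pool.Agent.Helper17.PC in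
/-- The choice of the parameters. -/
theorem params {n : ℕ} (hn : 9 ≤ n) : ∃ (θ z : ℝ) (y : ℤ) (K : ℕ), 0 ≤ θ ∧ θ ≤ 1 / 2 ∧ 1 ≤ K ∧
    0 ≤ y ∧ 1 ≤ θ * ((y : ℝ) - z) ∧ n * h (-(θ * z) + θ ^ 2 * n / 2) ≤ K ∧
    (y : ℝ) + 2 * K ≤ Real.sqrt (n * Real.log n) + Real.sqrt (n / Real.log n)
      + 2 * Real.exp (-1) * Real.sqrt n + 3 := by
  have hnR : (9 : ℝ) ≤ n := by exact_mod_cast hn
  have hn0 : (0 : ℝ) < n := by linarith
  have hlog1 : 1 ≤ Real.log n := by
    rw [Real.le_log_iff_exp_le hn0]
    have := Real.exp_one_lt_d9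
    linarith
  have hlog0 : 0 < Real.log n := by linarith
  have hlog4 : Real.log n ≤ n / 4 := by
    have h3 : Real.log 9 ≤ 9 / 4 := by
      have e1 : Real.log 9 = 2 * Real.log 3 := by
        rw [show (9 : ℝ) = 3 ^ 2 by norm_num, Real.log_pow]; norm_num
      have e2 : Real.log 3 ≤ 9 / 8 := by
        rw [Real.log_le_iff_le_exp (by norm_num)]
        have e3 : (3 : ℝ) ≤ Real.exp 1 * (1 + 1 / 8) := by
          have := Real.exp_one_gt_d9
          linarith
        have e4 : Real.exp (9 / 8) = Real.exp 1 * Real.exp (1 / 8) := by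
          rw [← Real.exp_add]; norm_num
        rw [e4]
        have e5 : (1 : ℝ) + 1 / 8 ≤ Real.exp (1 / 8) := by
          have := Real.add_one_le_exp (1 / 8 : ℝ)
          linarith
        exact e3.trans (mul_le_mul_of_nonneg_left e5 (Real.exp_pos _).le)
      rw [e1]; linarith
    have h4 : Real.log n = Real.log 9 + Real.log (n / 9) := by
      rw [← Real.log_mul (by norm_num) (by positivity)]
      congr 1; field_simp
    have h5 : Real.log (n / 9) ≤ n / 9 - 1 := Real.log_le_sub_one_of_pos (by positivity)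
    rw [h4]
    linarith
  set z := Real.sqrt (n * Real.log n) with hz
  have hz2 : z ^ 2 = n * Real.log n := Real.sq_sqrt (by positivity)
  have hz0 : 0 < z := Real.sqrt_pos.mpr (by positivity)
  set θ := z / n with hθ
  have hθ0 : 0 < θ := by positivity
  have hθ1 : θ ≤ 1 / 2 := by
    rw [hθ, div_le_iff₀ hn0]
    apply le_of_sq_le_sq _ (by positivity)
    rw [hz2]
    nlinarith
  have hθz : θ * z = Real.log n := by
    rw [hθ, div_mul_eq_mul_div, ← sq, hz2]
    field_simp
  have hθn : θ ^ 2 * n / 2 = Real.log n / 2 := by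
    rw [hθ, div_pow, hz2]
    field_simp
  have hinv : 1 / θ = Real.sqrt (n / Real.log n) := by
    rw [hθ, hz, one_div_div, Real.sqrt_div hn0.le, Real.sqrt_mul hn0.le]
    have h1 : Real.sqrt n ≠ 0 := (Real.sqrt_pos.mpr hn0).ne'
    have h2 : Real.sqrt (Real.log n) ≠ 0 := (Real.sqrt_pos.mpr hlog0).ne'
    have h3 : Real.sqrt n * Real.sqrt n = n := Real.mul_self_sqrt hn0.le
    rw [div_eq_div_iff (by positivity) h2, ← mul_assoc, h3]
  set K : ℕ := ⌈Real.exp (-1) * Real.sqrt n⌉₊ with hKdef
  have hK1 : 1 ≤ K := by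
    have h1 : 0 < Real.exp (-1) * Real.sqrt n := by positivity
    exact Nat.one_le_iff_ne_zero.mpr (Nat.ceil_pos.mpr h1).ne'
  have hKu : (K : ℝ) ≤ Real.exp (-1) * Real.sqrt n + 1 :=
    (Nat.ceil_lt_add_one (by positivity)).le
  have hKl : Real.exp (-1) * Real.sqrt n ≤ K := Nat.le_ceil _
  set y : ℤ := ⌈z + 1 / θ⌉ with hydef
  have hyl : z + 1 / θ ≤ y := Int.le_ceil _
  have hyu : (y : ℝ) ≤ z + 1 / θ + 1 := (Int.ceil_lt_add_one _).le
  have hy0 : 0 ≤ y := Int.ceil_nonneg (by positivity)
  have hy : 1 ≤ θ * ((y : ℝ) - z) := by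
    have h1 : θ * (1 / θ) = 1 := by field_simp
    have h2 : θ * (1 / θ) ≤ θ * ((y : ℝ) - z) :=
      mul_le_mul_of_nonneg_left (by linarith) hθ0.le
    linarith
  have hinit : n * h (-(θ * z) + θ ^ 2 * n / 2) ≤ K := by
    rw [hθz, hθn, h_le (by linarith)]
    refine le_trans (le_of_eq ?_) hKl
    have e1 : Real.exp (Real.log n / 2) = Real.sqrt n := by
      rw [Real.exp_half, Real.exp_log hn0]
    have e2 : -Real.log n + Real.log n / 2 - 1 = -1 + -(Real.log n / 2) := by ring
    rw [e2, Real.exp_add, Real.exp_neg (Real.log n / 2), e1]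
    have h3 : Real.sqrt n * Real.sqrt n = n := Real.mul_self_sqrt hn0.le
    have h1 : Real.sqrt n ≠ 0 := (Real.sqrt_pos.mpr hn0).ne'
    field_simp
    nlinarith
  refine ⟨θ, z, y, K, hθ0.le, hθ1, hK1, hy0, hy, hinit, ?_⟩
  rw [← hinv]
  linarith

/-- The explicit bound is asymptotically `√(n log n)`. -/
theorem bound_asymp {ε : ℝ} (hε : 0 < ε) : ∀ᶠ n : ℕ in atTop,
    Real.sqrt (n * Real.log n) + Real.sqrt (n / Real.log n)
      + 2 * Real.exp (-1) * Real.sqrt n + 3 ≤ (1 + ε) * Real.sqrt (n * Real.log n) := by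
  have h1 : ∀ᶠ n : ℕ in atTop, max 1 ((6 / ε) ^ 2) ≤ Real.log n :=
    (Real.tendsto_log_atTop.comp tendsto_natCast_atTop_atTop).eventually_ge_atTop _
  filter_upwards [h1, eventually_ge_atTop 9] with n hlog hn
  have hnR : (9 : ℝ) ≤ n := by exact_mod_cast hn
  have hn0 : (0 : ℝ) < n := by linarith
  have hl1 : 1 ≤ Real.log n := (le_max_left _ _).trans hlog
  have hl2 : (6 / ε) ^ 2 ≤ Real.log n := (le_max_right _ _).trans hlog
  have hs3 : 3 ≤ Real.sqrt n := by
    rw [Real.le_sqrt (by norm_num) hn0.le]; linarith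
  have hb : 6 / ε ≤ Real.sqrt (Real.log n) := by
    rw [Real.le_sqrt (by positivity) (by linarith)]
    exact hl2
  have hz : Real.sqrt (n * Real.log n) = Real.sqrt n * Real.sqrt (Real.log n) :=
    Real.sqrt_mul hn0.le _
  have h3 : Real.sqrt (n / Real.log n) ≤ Real.sqrt n := by
    apply Real.sqrt_le_sqrt
    rw [div_le_iff₀ (by linarith)]
    nlinarith
  have h4 : Real.exp (-1) ≤ 1 := by
    rw [Real.exp_le_one_iff]; norm_num
  have h5 : 2 * Real.exp (-1) * Real.sqrt n ≤ 2 * Real.sqrt n := by nlinarith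
  have h6 : 6 ≤ ε * Real.sqrt (Real.log n) := by
    have := (div_le_iff₀ hε).mp hb
    linarith
  have h7 : 6 * Real.sqrt n ≤ ε * Real.sqrt (n * Real.log n) := by
    rw [hz]
    nlinarith
  linarith

/-- **Disproof of the formula `L(n) = √((2+o(1)) log n) √n` in the Picker–Chooser row
discrepancy game.** Chooser keeps Picker's lead below the explicit bound in every row. Hence
`L(n) ≤ (1+o(1)) √(n log n)`, whichever mark the single remaining cell gets when `n` is odd. -/
theorem result :
    (∀ n : ℕ, 9 ≤ n → ∃ σ : Hist n → Finset (Cell n) → Cell n, ChooserLegal σ ∧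
      ∀ t : Hist n, ByChooser σ t → Complete t → ∀ (r : Bool) (i : Fin n),
        (rowLead (final r t) i : ℝ) ≤ Real.sqrt (n * Real.log n) + Real.sqrt (n / Real.log n)
          + 2 * Real.exp (-1) * Real.sqrt n + 3) ∧
    (∀ ε : ℝ, 0 < ε → ε < 1 → ∀ᶠ n : ℕ in atTop,
      ∃ σ : Hist n → Finset (Cell n) → Cell n, ChooserLegal σ ∧
        ∀ t : Hist n, ByChooser σ t → Complete t → ∀ (r : Bool) (i : Fin n),
          (rowLead (final r t) i : ℝ) < Real.sqrt ((2 - ε) * Real.log n) * Real.sqrt n) ∧
    (∀ κ : (n : ℕ) → Hist n → Bool,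
      (∀ n : ℕ, 1 ≤ n → IsGreatest {ℓ : ℤ | PickerForces κ n ℓ} (L κ n)) ∧
      (∀ ε : ℝ, 0 < ε → ∀ᶠ n : ℕ in atTop, (L κ n : ℝ) ≤ (1 + ε) * Real.sqrt (n * Real.log n)) ∧
      ¬ Tendsto (fun n : ℕ => (L κ n : ℝ) / (Real.sqrt (2 * Real.log n) * Real.sqrt n))
          atTop (𝓝 1)) := by
  have hA : ∀ n : ℕ, 9 ≤ n → ∃ σ : Hist n → Finset (Cell n) → Cell n, ChooserLegal σ ∧
      ∀ t : Hist n, ByChooser σ t → Complete t → ∀ (r : Bool) (i : Fin n),
        (rowLead (final r t) i : ℝ) ≤ Real.sqrt (n * Real.log n) + Real.sqrt (n / Real.log n)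
          + 2 * Real.exp (-1) * Real.sqrt n + 3 := by
    intro n hn
    obtain ⟨θ, z, y, K, h0, h1, hK1, hy0, hy, hinit, hb⟩ := params hn
    obtain ⟨σ, hσ, hσ2⟩ := chooser_strategy (by omega : 1 ≤ n) h0 h1 hK1 hy0 hy hinit
    refine ⟨σ, hσ, ?_⟩
    intro t ht hc r i
    have h2 := hσ2 t ht hc r i
    have h3 : (rowLead (final r t) i : ℝ) ≤ (y : ℝ) + 2 * K := by exact_mod_cast h2
    linarith
  have hB : ∀ (κ : (n : ℕ) → Hist n → Bool) (ε : ℝ), 0 < ε → ∀ᶠ n : ℕ in atTop,
      (L κ n : ℝ) ≤ (1 + ε) * Real.sqrt (n * Real.log n) := by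
    intro κ ε hε
    filter_upwards [bound_asymp hε, eventually_ge_atTop 9] with n hn1 hn2
    obtain ⟨σ, hσ, hσ2⟩ := hA n hn2
    have h1 := forces_le (L_greatest κ (by omega : 1 ≤ n)).1 hσ hσ2
    linarith
  refine ⟨hA, ?_, ?_⟩
  · intro ε hε0 hε1
    set q := Real.sqrt (2 - ε) with hq
    have hq1 : 1 < q := by
      rw [hq, Real.lt_sqrt (by norm_num)]
      linarith
    filter_upwards [bound_asymp (by linarith : 0 < (q - 1) / 2), eventually_ge_atTop 9]
      with n hn1 hn2
    obtain ⟨σ, hσ, hσ2⟩ := hA n hn2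
    refine ⟨σ, hσ, ?_⟩
    intro t ht hc r i
    have h1 := hσ2 t ht hc r i
    have hnR : (9 : ℝ) ≤ n := by exact_mod_cast hn2
    have hn0 : (0 : ℝ) < n := by linarith
    have hlog1 : 1 ≤ Real.log n := by
      rw [Real.le_log_iff_exp_le hn0]
      have := Real.exp_one_lt_d9
      linarith
    have hz : Real.sqrt (n * Real.log n) = Real.sqrt n * Real.sqrt (Real.log n) :=
      Real.sqrt_mul hn0.le _
    have hpos : 0 < Real.sqrt (n * Real.log n) := Real.sqrt_pos.mpr (by positivity)
    have hw : Real.sqrt ((2 - ε) * Real.log n) * Real.sqrt n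
        = q * Real.sqrt (n * Real.log n) := by
      rw [hz, Real.sqrt_mul (by linarith), hq]
      ring
    rw [hw]
    have h2 : (1 + (q - 1) / 2) * Real.sqrt (n * Real.log n) < q * Real.sqrt (n * Real.log n) :=
      mul_lt_mul_of_pos_right (by linarith) hpos
    linarith
  · intro κ
    refine ⟨fun n hn => L_greatest κ hn, hB κ, ?_⟩
    intro hT
    have h1 := hT.eventually (lt_mem_nhds (by norm_num : (9 / 10 : ℝ) < 1))
    obtain ⟨n, ⟨hn1, hn2⟩, hn3⟩ := ((h1.and (hB κ (1 / 10) (by norm_num))).and
      (eventually_ge_atTop 9)).exists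
    have hnR : (9 : ℝ) ≤ n := by exact_mod_cast hn3
    have hn0 : (0 : ℝ) < n := by linarith
    have hlog1 : 1 ≤ Real.log n := by
      rw [Real.le_log_iff_exp_le hn0]
      have := Real.exp_one_lt_d9
      linarith
    have hz : Real.sqrt (n * Real.log n) = Real.sqrt n * Real.sqrt (Real.log n) :=
      Real.sqrt_mul hn0.le _
    have hpos : 0 < Real.sqrt (n * Real.log n) := Real.sqrt_pos.mpr (by positivity)
    have hw : Real.sqrt (2 * Real.log n) * Real.sqrt n
        = Real.sqrt 2 * Real.sqrt (n * Real.log n) := by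
      rw [hz, Real.sqrt_mul (by norm_num)]
      ring
    have hsq2 : (1.41 : ℝ) ≤ Real.sqrt 2 := by
      rw [Real.le_sqrt (by norm_num) (by norm_num)]; norm_num
    rw [hw, lt_div_iff₀ (by positivity)] at hn1
    nlinarith

end Pool.Agent.Results.MP_cd7f8f_co.Full
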